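import Pool.Agent.helper132_hp.WAall
import Pool.Agent.helper132_hp.T_FIB
import Pool.Agent.helper132_hp.T_QAPP
import Pool.Agent.helper132_hp.T_LIFT
import Pool.Agent.helper132_hp.T_ZAR
import Pool.Agent.helper132_hp.T_LIMU_c

/-!
# Weak approximation for the hypersurfaces `∑ A_ij(t) y_i ^ k y_j ^ k = 0`, `s ≥ C k ^ 65`

Let `A(t)` be a symmetric `s × s` matrix of rational polynomials in `t_1, …, t_m`, with
`det A ≠ 0` and without a common factor of all the entries, and let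
`G(t, y) = ∑ A_ij(t) y_i ^ k y_j ^ k`. There is a constant `C` such that, for all `k ≥ 1`,
`s ≥ C k ^ 65`, for all `m` and `A`, the rational zeros of `G` are dense in the product of the sets
of the nonsingular zeros of `G` over `ℝ` and over the fields `ℚ_p`, for the primes `p` of a finite
set. The degrees of the `A_ij` and the number `m` are arbitrary.

If the `A_ij` are forms of degree `e` and the hypersurface `X : G = 0` of bidegree `(e, 2 k)` in
`ℙ ^ (m - 1) × ℙ ^ (s - 1)` is smooth, all its points are nonsingular zeros of `G`.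
-/

set_option autoImplicit false

namespace Pool.Agent.Results.MP_e426f4_ag.FamiliesInPowers

open Pool.Agent.helper132_hp

theorem result : ∃ C : ℕ, ∀ k ≥ 1, ∀ s ≥ C * k ^ 65, ∀ (m : ℕ)
    (A : Matrix (Fin s) (Fin s) (MvPolynomial (Fin m) ℚ)), A.IsSymm → A.det ≠ 0 →
    (∀ g, (∀ i j, g ∣ A i j) → IsUnit g) →
    -- a nonsingular real point
    ∀ (t : Fin m → ℝ) (y : Fin s → ℝ), GG ℝ A k t y = 0 → TotSm ℝ A k t y →
    -- nonsingular `p`-adic points for the primes of a finite set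
    ∀ (S : Finset ℕ) (T : ∀ (p : ℕ) [Fact p.Prime], Fin m → ℚ_[p])
      (Y : ∀ (p : ℕ) [Fact p.Prime], Fin s → ℚ_[p]),
      (∀ p ∈ S, ∀ [Fact p.Prime], GG ℚ_[p] A k (T p) (Y p) = 0 ∧ TotSm ℚ_[p] A k (T p) (Y p)) →
    ∀ ε : ℝ, 0 < ε → ∃ (q : Fin m → ℚ) (z : Fin s → ℚ), GG ℚ A k q z = 0 ∧
      (∀ i, |(q i : ℝ) - t i| < ε) ∧ (∀ i, |(z i : ℝ) - y i| < ε) ∧
      ∀ p ∈ S, ∀ [Fact p.Prime], (∀ i, ‖((q i : ℚ) : ℚ_[p]) - T p i‖ < ε) ∧
        ∀ i, ‖((z i : ℚ) : ℚ_[p]) - Y p i‖ < ε :=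
  t_FIB wa t_QAPP t_LIFT (t_LIMU t_ZAR)

end Pool.Agent.Results.MP_e426f4_ag.FamiliesInPowers
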